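import Pool.Agent.W525.CB.Stm2

/-! CB-ALIFZ: the coordinates of `Z` in its function field. -/

set_option autoImplicit false

open AlgebraicGeometry CategoryTheory Order

namespace Pool.Agent.W737.CB

open Pool.Agent.H187R3
open Pool.Agent.W525.CB

theorem main : S_ALIFZ := by
  intro P n k E _ _ _ _ _ _ x y hn hE M
  haveI := M.integral
  haveI := M.noeth
  have hnx : ∀ i, x i ≠ 0 := hE.dat.nx
  have hinj : Function.Injective M.κ := M.κ.injective
  letI : Algebra k M.X.functionField := (kmap M.f).toAlgebra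
  let φ : M.X.functionField →ₐ[k] E := { M.κ with commutes' := fun c => M.scal c }
  have hφ : ∀ g, φ g = M.κ g := fun g => rfl
  -- the charts
  have hsecR : ∀ i, ∀ e ∈ Algebra.adjoin k (Set.range fun j => x j / x i), ∃ g, M.κ g = e := by
    intro i e he
    have h1 : e ∈ secIn M.κ (M.U i) := by rw [M.sec i]; exact he
    obtain ⟨hη, s, hs⟩ := h1
    exact ⟨_, hs⟩
  have hX : ∀ i, ∃ g, M.κ g = x i / x 0 := fun i =>
    hsecR 0 _ (Algebra.subset_adjoin ⟨i, rfl⟩)
  choose X hX using hX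
  have hX0 : ∀ i, X i ≠ 0 := by
    intro i h
    have := hX i
    rw [h, map_zero] at this
    exact (div_ne_zero (hnx i) (hnx 0)) this.symm
  have hss : ∀ (σ : Equiv.Perm (Fin (n + 3))) (i : Fin (n + 3)), M.κ (ss X σ i) = ss x σ i := by
    intro σ i
    simp only [ss, map_div₀, hX]
    rw [div_div_div_cancel_right₀ (hnx 0)]
  -- the range
  have hFZ : φ.fieldRange = FZ k x := by
    apply le_antisymm
    · rintro _ ⟨g, rfl⟩
      have hne : Nonempty (M.U 0) := ⟨⟨genericPoint M.X, M.gen 0⟩⟩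
      haveI := functionField_isFractionRing_of_isAffineOpen M.X (M.U 0) (M.affine 0)
      obtain ⟨a, b, hb, hg⟩ := IsFractionRing.div_surjective (A := Γ(M.X, M.U 0)) g
      have hmem : ∀ a : Γ(M.X, M.U 0),
          M.κ (algebraMap Γ(M.X, M.U 0) M.X.functionField a) ∈ FZ k x := by
        intro a
        have h1 : M.κ (algebraMap Γ(M.X, M.U 0) M.X.functionField a) ∈ secIn M.κ (M.U 0) :=
          ⟨M.gen 0, a, rfl⟩
        rw [M.sec 0] at h1
        exact IntermediateField.algebra_adjoin_le_adjoin _ _ h1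
      change M.κ g ∈ FZ k x
      rw [← hg, map_div₀]
      exact div_mem (hmem a) (hmem b)
    · refine IntermediateField.adjoin_le_iff.2 ?_
      rintro _ ⟨i, rfl⟩
      exact ⟨X i, hX i⟩
  have himg : ∀ σ : Equiv.Perm (Fin (n + 3)), φ '' (Set.range (ss X σ)) = Set.range (ss x σ) := by
    intro σ
    ext e
    constructor
    · rintro ⟨_, ⟨i, rfl⟩, rfl⟩
      exact ⟨i, (hss σ i).symm⟩
    · rintro ⟨i, rfl⟩
      exact ⟨_, ⟨i, rfl⟩, hss σ i⟩
  have hmap : ∀ σ : Equiv.Perm (Fin (n + 3)),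
      (Algebra.adjoin k (Set.range (ss X σ))).map φ = AZ k x σ := by
    intro σ
    rw [AlgHom.map_adjoin, himg]
    rfl
  have hchart : ∀ σ : Equiv.Perm (Fin (n + 3)), secIn M.κ (M.U (σ 0)) = (AZ k x σ : Set E) := by
    intro σ
    rw [M.sec (σ 0), (P.ch n k E x y hE.dat).2.1 σ]
  refine ⟨X, hX0, ?_, ?_, hX, hss, ?_⟩
  · apply hinj
    rw [map_sum, map_zero]
    simp only [map_pow, hX, div_pow]
    rw [← Finset.sum_div, hE.dat.fermat, zero_div]
  · apply hinj
    rw [hX, map_one, div_self (hnx 0)]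
  refine ⟨?_, ?_, ?_⟩
  · have h1 := (P.tr n k E x y hn hE).2.1
    rw [← hFZ] at h1
    rw [(AlgHom.equivFieldRange φ).trdeg_eq]
    exact h1
  · intro σ
    apply IntermediateField.map_injective φ
    rw [IntermediateField.adjoin_map, himg, (P.ff n k E x y hn hE).2 σ, ← hFZ,
      AlgHom.fieldRange_eq_map]
  · intro σ p hp
    obtain ⟨h1, h2⟩ := P.loc M.X E M.κ (M.U (σ 0)) (M.affine (σ 0)) p hp
    rw [hchart σ] at h1 h2
    have hlift : ∀ b : E, b ∈ (AZ k x σ : Set E) →
        ∃ b' ∈ Algebra.adjoin k (Set.range (ss X σ)), M.κ b' = b := by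
      intro b hb
      have hb' : b ∈ (Algebra.adjoin k (Set.range (ss X σ))).map φ := by rw [hmap]; exact hb
      obtain ⟨b', hb1, hb2⟩ := hb'
      exact ⟨b', hb1, hb2⟩
    refine ⟨?_, ?_⟩
    · intro e he
      have h3 : M.κ e ∈ (AZ k x σ : Set E) := by
        rw [← hmap σ]
        exact ⟨e, he, rfl⟩
      obtain ⟨r, hr⟩ := h1 h3
      exact ⟨r, hinj hr⟩
    · intro r
      obtain ⟨b, s, hb, hs, hs0, hsi, hbs⟩ := h2 (M.κ (algebraMap _ _ r)) ⟨r, rfl⟩
      obtain ⟨b', hb', rfl⟩ := hlift b hb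
      obtain ⟨s', hs', rfl⟩ := hlift s hs
      refine ⟨b', s', hb', hs', ?_, ?_, ?_⟩
      · rintro rfl
        exact hs0 (map_zero _)
      · obtain ⟨t, ht⟩ := hsi
        refine ⟨t, hinj ?_⟩
        rw [map_inv₀]
        exact ht
      · apply hinj
        rw [map_div₀]
        exact hbs

end Pool.Agent.W737.CB
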